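import Mathlib

namespace Pool.Agent.MP_8013b9_lc

/-- An ideal on `ℕ`: closed under subsets and finite unions, contains every finite set, proper. -/
def IsIdealOnNat (I : Set (Set ℕ)) : Prop :=
  (∀ A B : Set ℕ, A ⊆ B → B ∈ I → A ∈ I) ∧
  (∀ A B : Set ℕ, A ∈ I → B ∈ I → A ∪ B ∈ I) ∧
  (∀ A : Set ℕ, A.Finite → A ∈ I) ∧
  (Set.univ : Set ℕ) ∉ I

/-- `I*`-convergence of a sequence in the circle `ℝ / ℤ`: for some `S ∈ I`, the sequence
restricted to the indices outside `S` converges to `η` in the usual sense. -/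
def IStarConv (I : Set (Set ℕ)) (x : ℕ → UnitAddCircle) (η : UnitAddCircle) : Prop :=
  ∃ S ∈ I, ∀ ε : ℝ, 0 < ε → ∃ N : ℕ, ∀ n : ℕ, N ≤ n → n ∉ S → ‖x n - η‖ < ε

/-- The set of points `x` of the circle with `I*`-`lim a n • x = 0`. -/
def HStar (a : ℕ → ℤ) (I : Set (Set ℕ)) : Set UnitAddCircle :=
  {x | IStarConv I (fun n => a n • x) 0}

end Pool.Agent.MP_8013b9_lc
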