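import Mathlib
import Pool.Agent.MP_8013b9_lc.Defs

namespace Pool.Agent.MP_8013b9_lc

open Filter Topology Set Cardinal

/-- A rational functional killing `1` and nonzero somewhere on each member of a family of at most
continuum many sets of reals of size continuum. -/
theorem exists_functional {ι : Type} (hι : Cardinal.mk ι ≤ 𝔠) (G : ι → Set ℝ)
    (hG : ∀ i, 𝔠 ≤ Cardinal.mk (G i)) :
    ∃ φ : ℝ →ₗ[ℚ] ℚ, φ 1 = 0 ∧ ∀ i, ∃ y ∈ G i, φ y = 1 := by
  classical
  obtain ⟨r, hr, hord⟩ := Cardinal.exists_ord_eq ι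
  let _ : LinearOrder ι := linearOrderOfSTO r
  have _ : WellFoundedLT ι := ⟨hr.wf⟩
  have hsmall : ∀ i : ι, Cardinal.mk (Iio i) < 𝔠 := fun i =>
    lt_of_lt_of_le (Cardinal.mk_Iio_lt i hord) hι
  have hstep : ∀ (i : ι) (f : Iio i → ℝ), ∃ y ∈ G i,
      y ∉ Submodule.span ℚ (insert (1 : ℝ) (range f)) := by
    intro i f
    by_contra hcon
    push Not at hcon
    have h1 : Cardinal.mk (G i) ≤ Cardinal.mk (Algebra.adjoin ℚ (insert (1 : ℝ) (range f))) :=
      Cardinal.mk_le_mk_of_subset (fun y hy => Algebra.span_le_adjoin ℚ _ (hcon y hy))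
    have h2 := Algebra.cardinalMk_adjoin_le ℚ (insert (1 : ℝ) (range f))
    have h3 : Cardinal.mk (insert (1 : ℝ) (range f) : Set ℝ) < 𝔠 := by
      refine lt_of_le_of_lt Cardinal.mk_insert_le ?_
      refine Cardinal.add_lt_of_lt Cardinal.aleph0_le_continuum ?_ ?_
      · exact lt_of_le_of_lt Cardinal.mk_range_le (hsmall i)
      · exact lt_of_lt_of_le Cardinal.one_lt_aleph0 Cardinal.aleph0_le_continuum
    have h4 : Cardinal.mk ℚ ⊔ Cardinal.mk (insert (1 : ℝ) (range f) : Set ℝ) ⊔ ℵ₀ < 𝔠 := by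
      rw [Cardinal.mkRat]
      exact max_lt (max_lt Cardinal.aleph0_lt_continuum h3) Cardinal.aleph0_lt_continuum
    exact absurd (((hG i).trans h1).trans h2) (not_le.2 h4)
  choose F hF1 hF2 using hstep
  let x : ι → ℝ := (wellFounded_lt (α := ι)).fix (fun i g => F i (fun j => g j.1 j.2))
  have hx : ∀ i, x i = F i (fun j => x j.1) := fun i => by
    simp only [x]
    rw [WellFounded.fix_eq]
  have hxG : ∀ i, x i ∈ G i := fun i => by rw [hx]; exact hF1 _ _
  have hxs : ∀ i, x i ∉ Submodule.span ℚ (insert (1 : ℝ) (x '' Iio i)) := fun i => by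
    have := hF2 i (fun j => x j.1)
    rw [← hx] at this
    rwa [image_eq_range]
  let v : WithBot ι → ℝ := fun j => WithBot.recBotCoe 1 x j
  have hv : ∀ j : WithBot ι, v j ∉ Submodule.span ℚ (v '' Iio j) := by
    intro j
    induction j using WithBot.recBotCoe with
    | bot => simp [v]
    | coe i =>
      intro h
      apply hxs i
      refine Submodule.span_mono ?_ h
      rintro _ ⟨k, hk, rfl⟩
      induction k using WithBot.recBotCoe with
      | bot => left; rfl
      | coe k => right; exact ⟨k, WithBot.coe_lt_coe.1 hk, rfl⟩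
  have hli : LinearIndependent ℚ v := by
    rw [linearIndependent_iff_finset_linearIndependent]
    intro s
    change LinearIndepOn ℚ v (s : Set (WithBot ι))
    induction s using Finset.induction_on_max with
    | empty => simp
    | insert a s ha ih =>
      rw [Finset.coe_insert]
      refine ih.insert (fun h => hv a (Submodule.span_mono ?_ h))
      exact image_mono (fun b hb => ha b hb)
  let c : WithBot ι → ℚ := fun j => WithBot.recBotCoe 0 (fun _ => 1) j
  obtain ⟨φ, hφ⟩ := LinearMap.exists_extend ((Finsupp.linearCombination ℚ c).comp hli.repr)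
  have key : ∀ j, φ (v j) = c j := by
    intro j
    have h1 := LinearMap.congr_fun hφ ⟨v j, Submodule.subset_span (mem_range_self j)⟩
    simp only [LinearMap.comp_apply, Submodule.subtype_apply] at h1
    rw [h1, hli.repr_eq_single j _ rfl]
    simp
  exact ⟨φ, key ⊥, fun i => ⟨x i, hxG i, key (i : WithBot ι)⟩⟩

/-- The kernel of a nonzero rational functional meets every dense countable intersection of open
sets. -/
theorem ker_meets {κ : Type} [Countable κ] (φ : ℝ →ₗ[ℚ] ℚ) (t : ℝ) (ht : φ t = 1)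
    (U : κ → Set ℝ) (hUo : ∀ k, IsOpen (U k)) (hUd : ∀ k, Dense (U k)) :
    ∃ z, φ z = 0 ∧ ∀ k, z ∈ U k := by
  let W : κ × ℚ → Set ℝ := fun p => (fun z => z - (p.2 : ℝ) * t) ⁻¹' U p.1
  have hWo : ∀ p, IsOpen (W p) := fun p => (hUo p.1).preimage (by fun_prop)
  have hWd : ∀ p, Dense (W p) := fun p =>
    (hUd p.1).preimage (Homeomorph.subRight ((p.2 : ℝ) * t)).isOpenMap
  obtain ⟨z, hz⟩ := (dense_iInter_of_isOpen hWo hWd).nonempty
  refine ⟨z - (φ z : ℝ) * t, ?_, fun k => mem_iInter.1 hz (k, φ z)⟩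
  have : (φ z : ℝ) * t = (φ z) • t := by rw [Rat.smul_def]
  rw [map_sub, this, map_smul, ht]
  simp

/-- Reals `y` with `a n • y → 0` in the circle along `B`. -/
def T (a : ℕ → ℤ) (B : Set ℕ) : AddSubgroup ℝ where
  carrier := {y | Tendsto (fun n => a n • (y : UnitAddCircle)) (atTop ⊓ 𝓟 B) (𝓝 0)}
  zero_mem' := by simp [tendsto_const_nhds]
  add_mem' := by
    intro x y hx hy
    have := Tendsto.add hx hy
    simpa [AddCircle.coe_add, smul_add] using this
  neg_mem' := by
    intro x hx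
    have := Tendsto.neg hx
    simpa [AddCircle.coe_neg] using this

theorem mem_T_iff (a : ℕ → ℤ) (B : Set ℕ) (y : ℝ) :
    y ∈ T a B ↔ ∀ ε : ℝ, 0 < ε → ∃ N : ℕ, ∀ n : ℕ, N ≤ n → n ∈ B →
      ‖a n • (y : UnitAddCircle)‖ < ε := by
  change Tendsto (fun n => a n • (y : UnitAddCircle)) (atTop ⊓ 𝓟 B) (𝓝 0) ↔ _
  rw [Metric.tendsto_nhds]
  simp only [eventually_inf_principal, eventually_atTop, dist_zero_right, gt_iff_lt]

theorem T_mono (a : ℕ → ℤ) {A B : Set ℕ} (h : A ⊆ B) {y : ℝ} (hy : y ∈ T a B) : y ∈ T a A :=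
  Tendsto.mono_left hy (inf_le_inf_left _ (principal_mono.2 h))

theorem one_mem_T (a : ℕ → ℤ) (B : Set ℕ) : (1 : ℝ) ∈ T a B := by
  change Tendsto (fun n => a n • ((1 : ℝ) : UnitAddCircle)) (atTop ⊓ 𝓟 B) (𝓝 0)
  have : ((1 : ℝ) : UnitAddCircle) = 0 := AddCircle.coe_period 1
  simp [this, tendsto_const_nhds]

theorem norm_coe_le (y : ℝ) : ‖(y : UnitAddCircle)‖ ≤ |y| := by
  simpa using (QuotientAddGroup.norm_mk_le_norm (S := AddSubgroup.zmultiples (1 : ℝ)) (m := y))

/-- A non-discrete characterized group has size continuum. -/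
theorem continuum_le_T (a : ℕ → ℤ) (B : Set ℕ)
    (h : ∀ δ : ℝ, 0 < δ → ∃ y ∈ T a B, y ≠ 0 ∧ |y| < δ ∧
      ∀ n ∈ B, ‖a n • (y : UnitAddCircle)‖ ≤ δ) :
    𝔠 ≤ Cardinal.mk (T a B : Set ℝ) := by
  classical
  choose! g hgT hg0 hg1 hg2 using h
  let δ : ℕ → ℝ := fun k => Nat.rec 1 (fun _ d => |g d| / 4) k
  have hδs : ∀ k, δ (k + 1) = |g (δ k)| / 4 := fun k => rfl
  have hδ : ∀ k, 0 < δ k := by
    intro k
    induction k with
    | zero => exact one_pos
    | succ k ih => rw [hδs]; exact div_pos (abs_pos.2 (hg0 _ ih)) (by norm_num)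
  have hδle : ∀ k j, δ (k + j) ≤ δ k * (1 / 4) ^ j := by
    intro k j
    induction j with
    | zero => simp
    | succ j ih =>
      rw [← add_assoc, hδs, pow_succ]
      have := hg1 _ (hδ (k + j))
      linarith
  have hδ1 : ∀ j, δ j ≤ (1 / 4) ^ j := fun j => by
    have := hδle 0 j
    simpa [δ] using this
  have hgeo : Summable (fun j : ℕ => (1 / 4 : ℝ) ^ j) :=
    summable_geometric_of_lt_one (by norm_num) (by norm_num)
  let u : (ℕ → Bool) → ℕ → ℝ := fun ε k => if ε k then g (δ k) else 0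
  have hu : ∀ ε k, |u ε k| ≤ (1 / 4) ^ k := by
    intro ε k
    simp only [u]
    split_ifs
    · exact (hg1 _ (hδ k)).le.trans (hδ1 k)
    · simp
  have hus : ∀ ε, Summable (u ε) := fun ε =>
    Summable.of_norm_bounded hgeo (fun k => by simpa using hu ε k)
  have hmem : ∀ ε, (∑' k, u ε k) ∈ T a B := by
    intro ε
    have h1 : Tendsto (fun n => ∑' k, a n • ((u ε k : ℝ) : UnitAddCircle)) (atTop ⊓ 𝓟 B)
        (𝓝 (∑' _ : ℕ, (0 : UnitAddCircle))) := by
      refine tendsto_tsum_of_dominated_convergence hgeo (fun k => ?_) ?_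
      · simp only [u]
        split_ifs
        · exact hgT _ (hδ k)
        · simp [tendsto_const_nhds]
      · rw [eventually_inf_principal]
        refine Eventually.of_forall (fun n hn k => ?_)
        simp only [u]
        split_ifs
        · exact (hg2 _ (hδ k) n hn).trans (hδ1 k)
        · simp
    rw [tsum_zero] at h1
    refine h1.congr (fun n => ?_)
    let ψ : ℝ →+ UnitAddCircle := (a n) • QuotientAddGroup.mk' (AddSubgroup.zmultiples (1 : ℝ))
    have hψ : Continuous ψ := by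
      have : Continuous (fun y : ℝ => a n • (y : UnitAddCircle)) :=
        (continuous_zsmul (a n)).comp (AddCircle.continuous_mk' 1)
      exact this
    exact (((hus ε).hasSum.map ψ hψ).tsum_eq)
  let Φ : (ℕ → Bool) → (T a B : Set ℝ) := fun ε => ⟨∑' k, u ε k, hmem ε⟩
  have hinj : Function.Injective Φ := by
    intro ε ε' hee
    by_contra hne
    have hex : ∃ k, ε k ≠ ε' k := Function.ne_iff.1 hne
    let k := Nat.find hex
    have hk : ε k ≠ ε' k := Nat.find_spec hex
    have hlt : ∀ j < k, ε j = ε' j := fun j hj => by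
      have := Nat.find_min hex hj
      simpa using this
    have heq : ∑' j, u ε j = ∑' j, u ε' j := congrArg Subtype.val hee
    let w : ℕ → ℝ := fun j => u ε j - u ε' j
    have hws : Summable w := (hus ε).sub (hus ε')
    have hw0 : ∑' j, w j = 0 := by
      simp only [w]
      rw [(hus ε).tsum_sub (hus ε'), heq, sub_self]
    have hsplit := hws.sum_add_tsum_nat_add (k + 1)
    rw [hw0, Finset.sum_range_succ, Finset.sum_eq_zero (fun j hj => by
      simp [w, u, hlt j (Finset.mem_range.1 hj)]), zero_add] at hsplit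
    have hwk : |w k| = |g (δ k)| := by
      simp only [w, u]
      cases h1 : ε k <;> cases h2 : ε' k <;> simp_all
    have hwj : ∀ j, ‖w (j + (k + 1))‖ ≤ δ (k + 1) * (1 / 4) ^ j := by
      intro j
      have h1 := (hg1 _ (hδ (k + 1 + j))).le.trans (hδle (k + 1) j)
      have h0 : 0 ≤ δ (k + 1) * (1 / 4) ^ j := by have := hδ (k + 1); positivity
      rw [add_comm j]
      simp only [w, u, Real.norm_eq_abs]
      split_ifs
      · simpa using h0
      · simpa using h1
      · simpa using h1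
      · simpa using h0
    have hb : ‖∑' j, w (j + (k + 1))‖ ≤ δ (k + 1) * (1 - 1 / 4)⁻¹ := by
      refine tsum_of_norm_bounded ?_ hwj
      exact (hasSum_geometric_of_lt_one (by norm_num) (by norm_num)).mul_left _
    have h5 : ∑' j, w (j + (k + 1)) = - w k := by linarith
    rw [h5, norm_neg, Real.norm_eq_abs, hwk, hδs] at hb
    have hpos := abs_pos.2 (hg0 _ (hδ k))
    norm_num at hb
    linarith
  have := Cardinal.mk_le_of_injective hinj
  simpa using this

theorem main : ∃ H : AddSubgroup UnitAddCircle, ∀ I : Set (Set ℕ),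
    (∀ A B : Set ℕ, A ∈ I → B ∈ I → A ∪ B ∈ I) →
    ∀ a : ℕ → ℤ, (H : Set UnitAddCircle) ≠ HStar a I := by
  classical
  let ι : Type := {p : (ℕ → ℤ) × Set ℕ // 𝔠 ≤ Cardinal.mk (T p.1 p.2 : Set ℝ)}
  have hι : Cardinal.mk ι ≤ 𝔠 := by
    refine (Cardinal.mk_subtype_le _).trans (le_of_eq ?_)
    simp
  obtain ⟨φ, hφ1, hφ⟩ := exists_functional hι (fun p => (T p.1.1 p.1.2 : Set ℝ)) (fun p => p.2)
  have hbig : ∀ a B, 𝔠 ≤ Cardinal.mk (T a B : Set ℝ) → ∃ y ∈ T a B, φ y = 1 :=
    fun a B h => hφ ⟨(a, B), h⟩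
  obtain ⟨t, -, ht⟩ := hbig 0 ∅ (by
    have : (T 0 ∅ : Set ℝ) = Set.univ := by
      ext y
      simp [mem_T_iff]
    rw [this]
    simp [Cardinal.mk_real])
  let K : AddSubgroup ℝ := (LinearMap.ker φ).toAddSubgroup
  refine ⟨K.map (QuotientAddGroup.mk' (AddSubgroup.zmultiples (1 : ℝ))), ?_⟩
  intro I hI a hH
  have hchar : ∀ y : ℝ, φ y = 0 ↔ ∃ S ∈ I, y ∈ T a Sᶜ := by
    intro y
    have h1 : (y : UnitAddCircle) ∈ HStar a I ↔ ∃ S ∈ I, y ∈ T a Sᶜ := by
      simp only [HStar, IStarConv, mem_ofPred_eq, sub_zero, mem_T_iff, mem_compl_iff]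
    rw [← h1, ← hH]
    constructor
    · intro hy
      exact ⟨y, hy, rfl⟩
    · rintro ⟨z, hz, hzy⟩
      have hz' : φ z = 0 := hz
      obtain ⟨m, hm⟩ := QuotientAddGroup.eq.1 hzy
      have : y = z + m • (1 : ℝ) := by
        simp only at hm
        linarith
      rw [this, map_add, map_zsmul, hz', hφ1]
      simp
  obtain ⟨x, hx0, hxirr⟩ := ker_meets φ t ht (fun q : ℚ => {(q : ℝ)}ᶜ)
    (fun q => isOpen_compl_singleton) (fun q => dense_compl_singleton _)
  have hirr : Irrational (x / 1) := by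
    rintro ⟨q, hq⟩
    exact hxirr q (by simpa using hq.symm)
  obtain ⟨S, hS, hxS⟩ := (hchar x).1 hx0
  have hdense : Dense (T a Sᶜ : Set ℝ) := by
    refine (dense_addSubgroupClosure_pair_iff.2 hirr).mono ?_
    refine (AddSubgroup.closure_le _).2 ?_
    rintro y (rfl | rfl)
    · exact hxS
    · exact one_mem_T _ _
  let U : ℕ → Set ℝ := fun k => ⋃ w ∈ T a Sᶜ, ⋃ N : ℕ, ⋃ _ : k ≤ N,
    ⋃ _ : (∀ n, N ≤ n → n ∈ Sᶜ → ‖a n • (w : UnitAddCircle)‖ < 1 / ((k : ℝ) + 1)),
      ({w}ᶜ ∩ {z | |z - w| < 1 / ((k : ℝ) + 1)} ∩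
        ⋂ n ∈ Finset.range N, {z | |(a n : ℝ) * (z - w)| < 1 / ((k : ℝ) + 1)})
  have hopen : ∀ (k : ℕ) (w : ℝ) (N : ℕ), IsOpen ({z : ℝ | |z - w| < 1 / ((k : ℝ) + 1)} ∩
        ⋂ n ∈ Finset.range N, {z : ℝ | |(a n : ℝ) * (z - w)| < 1 / ((k : ℝ) + 1)}) := by
    intro k w N
    refine IsOpen.inter (isOpen_lt (by fun_prop) (by fun_prop)) ?_
    exact isOpen_biInter_finset (fun n _ => isOpen_lt (by fun_prop) (by fun_prop))
  have hUo : ∀ k, IsOpen (U k) := by
    intro k
    refine isOpen_iUnion fun w => isOpen_iUnion fun _ => isOpen_iUnion fun N =>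
      isOpen_iUnion fun _ => isOpen_iUnion fun _ => ?_
    rw [inter_assoc]
    exact isOpen_compl_singleton.inter (hopen k w N)
  have hUd : ∀ k, Dense (U k) := by
    intro k
    rw [dense_iff_inter_open]
    intro V hV hVne
    obtain ⟨w, hwV, hw⟩ := hdense.inter_open_nonempty V hV hVne
    have hk : (0 : ℝ) < 1 / ((k : ℝ) + 1) := by positivity
    obtain ⟨N, hN⟩ := (mem_T_iff _ _ _).1 hw _ hk
    have hV' := hV.inter (hopen k w (max N k))
    obtain ⟨z, ⟨hzV, hz1, hz2⟩, hzw⟩ := (dense_compl_singleton w).inter_open_nonempty _ hV'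
      ⟨w, hwV, by simpa using hk, by
        simp only [mem_iInter, mem_ofPred_eq]
        intro n _
        simpa using hk⟩
    refine ⟨z, hzV, ?_⟩
    simp only [U, mem_iUnion]
    exact ⟨w, hw, max N k, le_max_right _ _,
      fun n hn hnS => hN n ((le_max_left _ _).trans hn) hnS, ⟨hzw, hz1⟩, hz2⟩
  obtain ⟨z, hz0, hzU⟩ := ker_meets φ t ht U hUo hUd
  obtain ⟨S', hS', hzS⟩ := (hchar z).1 hz0
  have hsub1 : (S ∪ S')ᶜ ⊆ Sᶜ := compl_subset_compl.2 subset_union_left
  have hsub2 : (S ∪ S')ᶜ ⊆ S'ᶜ := compl_subset_compl.2 subset_union_right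
  obtain ⟨y, hyT, hy⟩ := hbig a (S ∪ S')ᶜ (continuum_le_T _ _ (by
    intro δ hδ
    obtain ⟨N', hN'⟩ := (mem_T_iff _ _ _).1 hzS (δ / 2) (by linarith)
    obtain ⟨k0, hk0⟩ := exists_nat_one_div_lt (show 0 < δ / 2 by linarith)
    let k := max N' k0
    have hk : 1 / ((k : ℝ) + 1) < δ / 2 := by
      refine lt_of_le_of_lt ?_ hk0
      apply one_div_le_one_div_of_le (by positivity)
      have : (k0 : ℝ) ≤ k := by exact_mod_cast le_max_right _ _
      linarith
    have hz := hzU k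
    simp only [U, mem_iUnion] at hz
    obtain ⟨w, hw, N, hkN, hN, ⟨hzw, hz1⟩, hz2⟩ := hz
    refine ⟨z - w, sub_mem (T_mono a hsub2 hzS) (T_mono a hsub1 hw), sub_ne_zero.2 hzw, ?_, ?_⟩
    · have : |z - w| < 1 / ((k : ℝ) + 1) := hz1
      linarith
    · intro n hn
      by_cases hnN : n < N
      · simp only [mem_iInter, mem_ofPred_eq] at hz2
        have h1 := hz2 n (Finset.mem_range.2 hnN)
        have h2 := norm_coe_le ((a n : ℝ) * (z - w))
        have h3 : a n • ((z - w : ℝ) : UnitAddCircle) = (((a n : ℝ) * (z - w) : ℝ) : UnitAddCircle) := by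
          rw [← zsmul_eq_mul, AddCircle.coe_zsmul]
        rw [h3]
        linarith
      · have hnN' : N ≤ n := not_lt.1 hnN
        have h1 := hN n hnN' (hsub1 hn)
        have h2 := hN' n ((le_max_left _ _).trans (hkN.trans hnN')) (hsub2 hn)
        rw [AddCircle.coe_sub, smul_sub]
        refine (norm_sub_le _ _).trans ?_
        linarith))
  have := (hchar y).2 ⟨S ∪ S', hI _ _ hS hS', hyT⟩
  rw [this] at hy
  exact zero_ne_one hy

end Pool.Agent.MP_8013b9_lc
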